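import Pool.Agent.Helper88.CU.Base
import Pool.Agent.Helper88.CU.NT

/-!
# No cubic polynomial is pair-sum distinct

Let `P` be a polynomial with integer coefficients and degree exactly `3`.  For every `n₀` there are
two different pairs of integers `≥ n₀` with the same sum of values of `P`; in particular `P` is not
pair-sum distinct.
-/

set_option autoImplicit false

namespace Pool.Agent.Helper88.Variants.Cubics

open Polynomial
open Pool.Agent.Helper88.CU

/-- The sums `P(a) + P(b)`, `0 ≤ a < b`, are pairwise distinct. -/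
def PairSumDistinct (P : ℤ[X]) : Prop :=
  ∀ a b c d : ℕ, a < b → c < d →
    P.eval (a : ℤ) + P.eval (b : ℤ) = P.eval (c : ℤ) + P.eval (d : ℤ) → a = c ∧ b = d

theorem coll_pos (A B C : ℤ) (hA : 0 < A) : Coll A B C := by
  by_cases hQ : 3 * A * C - B ^ 2 = 0
  · exact fam2 A B C hA (by linarith)
  · obtain ⟨τ, m, u, z, hm, hE, hu, hz⟩ := main_arith A B C hA hQ
    exact fam1 A B C τ hA m hm hE u hu z hz

theorem coll_all (A B C : ℤ) (hA : A ≠ 0) : Coll A B C := by
  rcases lt_or_gt_of_ne hA with h | h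
  · obtain ⟨x1, x2, x3, x4, h0, h1, h2, h3, h4⟩ := coll_pos (-A) (-B) (-C) (by linarith)
    exact ⟨x1, x2, x3, x4, h0, h1, h2, h3, by linarith⟩
  · exact coll_pos A B C h

theorem result (P : ℤ[X]) (hP : P.natDegree = 3) :
    ¬ PairSumDistinct P ∧
      ∀ n₀ : ℕ, ∃ a b c d : ℕ, n₀ ≤ c ∧ c < a ∧ a < b ∧ c < d ∧
        P.eval (a : ℤ) + P.eval (b : ℤ) = P.eval (c : ℤ) + P.eval (d : ℤ) := by
  have main : ∀ n₀ : ℕ, ∃ a b c d : ℕ, n₀ ≤ c ∧ c < a ∧ a < b ∧ c < d ∧
        P.eval (a : ℤ) + P.eval (b : ℤ) = P.eval (c : ℤ) + P.eval (d : ℤ) := by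
    intro n₀
    obtain ⟨R, hR⟩ : ∃ R, R = P.comp (X + C (n₀ : ℤ)) := ⟨_, rfl⟩
    have hdeg : R.natDegree = 3 := by
      rw [hR, natDegree_comp, natDegree_X_add_C, hP]
    have hev : ∀ x : ℤ, P.eval (x + n₀) = R.eval x := by
      intro x; rw [hR]; simp
    have hexp : ∀ x : ℤ, R.eval x
        = R.coeff 3 * x ^ 3 + R.coeff 2 * x ^ 2 + R.coeff 1 * x + R.coeff 0 := by
      intro x
      rw [eval_eq_sum_range, hdeg]
      simp [Finset.sum_range_succ]
      ring
    have h3 : R.coeff 3 ≠ 0 := by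
      have : R ≠ 0 := by
        rintro h
        rw [h] at hdeg
        simp at hdeg
      have h' := leadingCoeff_ne_zero.2 this
      rwa [leadingCoeff, hdeg] at h'
    obtain ⟨x1, x2, x3, x4, h0, h1, h2, h3, h4⟩ := coll_all _ (R.coeff 2) (R.coeff 1) h3
    lift x3 to ℕ using h0
    lift x1 to ℕ using by linarith
    lift x2 to ℕ using by linarith
    lift x4 to ℕ using by linarith
    refine ⟨x1 + n₀, x2 + n₀, x3 + n₀, x4 + n₀, by omega, by omega, by omega, by omega, ?_⟩
    push_cast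
    rw [hev, hev, hev, hev, hexp, hexp, hexp, hexp]
    linarith
  refine ⟨?_, main⟩
  intro h
  obtain ⟨a, b, c, d, -, h1, h2, h3, h4⟩ := main 0
  have := (h a b c d h2 h3 h4).1
  omega

end Pool.Agent.Helper88.Variants.Cubics
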